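import Pool.Agent.helper69.DH.SpecR2

/-!
# rVAR: variation of the openness along a branch (project d2, MP_5823cb_al)
-/

set_option autoImplicit false

open Filter Topology MeasureTheory
open scoped commutatorElement

namespace Pool.Agent.helper90.DH

open Pool.Agent.helper64.D2

theorem rVAR (hBAS : rBAS_stmt) (hETA : rETA_stmt) (hSIG : rSIG_stmt) (hHOT : rHOT_stmt) : rVAR_stmt := by
  classical
  intro P S hRHY D hROK z p hz1 hz2 hp
  -- the first hit
  obtain ⟨n, hnS, hn1, hn2⟩ : ∃ n : ℕ, n ≤ S + 1 ∧ (∀ t < n, ci t z ∉ D.H t) ∧ (n ≤ S → ci n z ∈ D.H n) := by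
    by_cases hex : ∃ t : ℕ, t ≤ S ∧ ci t z ∈ D.H t
    · refine ⟨Nat.find hex, ?_, ?_, fun _ => (Nat.find_spec hex).2⟩
      · have := (Nat.find_spec hex).1
        omega
      · intro t ht hmem
        have h1 := (Nat.find_spec hex).1
        exact Nat.find_min hex ht ⟨by omega, hmem⟩
    · refine ⟨S + 1, le_rfl, ?_, fun h => by omega⟩
      intro t ht hmem
      exact hex ⟨t, by omega, hmem⟩
  set a : ℕ → ℝ := fun s => reta D.H s z with ha
  set e : ℕ → ℝ := fun s => reta D.H s (p s) with he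
  set β : ℕ → ℝ := fun s => if s < n then 25 / 2 ^ 30 * rsg D.H s z else 0 with hβ
  have hβ0 : ∀ s, 0 ≤ β s := by
    intro s
    rw [hβ]
    dsimp only
    split_ifs with h
    · have := (hETA D.H s z).1.2.2.2
      positivity
    · exact le_rfl
  have hb : ∀ s, P.s0 ≤ s → s ≤ S → |e s - a s| ≤ β s := by
    intro s hs1 hs2
    rw [hβ]
    dsimp only
    split_ifs with h
    · obtain ⟨lam, _, hlam⟩ := (hETA D.H s z).2.2.2
      exact (hlam (p s) (hp s hs1 hs2)).2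
    · have hns : n ≤ s := not_lt.1 h
      have h1 := (hETA D.H s z).2.2.1 ⟨n, hns, ci n z, hn2 (by omega), (hBAS.1 n z).2.2⟩
      have h2 : e s = 0 := h1 (p s) (hp s hs1 hs2)
      have h3 : a s = 0 := by
        refine h1 z ?_
        rw [sub_self, abs_zero]
        positivity
      rw [h2, h3, sub_self, abs_zero]
  have hsig : ∑ s ∈ Finset.range n, rsg D.H s z ≤ 2 ^ 39 := by
    refine hSIG D.H n z (fun s hs => ?_)
    exact ((hHOT P S hRHY D hROK s (by omega)).1 z hz1 hz2 (fun t ht => hn1 t (by omega))).1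
  have hβs : ∑ s ∈ Finset.range (S + 1), β s ≤ 25 * 2 ^ 9 := by
    have h1 : ∑ s ∈ Finset.range (S + 1), β s = ∑ s ∈ Finset.range n, 25 / 2 ^ 30 * rsg D.H s z := by
      rw [hβ]
      dsimp only
      rw [← Finset.sum_filter]
      refine Finset.sum_congr ?_ (fun _ _ => rfl)
      ext s
      simp only [Finset.mem_filter, Finset.mem_range]
      constructor
      · exact fun h => h.2
      · exact fun h => ⟨by omega, h⟩
    rw [h1, ← Finset.mul_sum]
    calc 25 / 2 ^ 30 * ∑ s ∈ Finset.range n, rsg D.H s z ≤ 25 / 2 ^ 30 * 2 ^ 39 :=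
          mul_le_mul_of_nonneg_left hsig (by positivity)
      _ = 25 * 2 ^ 9 := by norm_num
  -- termwise
  have hterm : ∀ s ∈ Finset.Ico P.s0 S, |e (s + 1) - e s| ≤ (a s - a (s + 1)) + (β (s + 1) + β s) := by
    intro s hs
    rw [Finset.mem_Ico] at hs
    have h1 := hb s hs.1 (by omega)
    have h2 := hb (s + 1) (by omega) (by omega)
    have h3 : a (s + 1) ≤ a s := (hETA D.H s z).1.2.2.1
    rw [abs_le] at h1 h2 ⊢
    constructor
    · linarith [h1.1, h1.2, h2.1, h2.2]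
    · linarith [h1.1, h1.2, h2.1, h2.2]
  have htel : ∑ s ∈ Finset.Ico P.s0 S, (a s - a (s + 1)) ≤ 1 := by
    rw [Finset.sum_Ico_eq_sum_range]
    have h1 := Finset.sum_range_sub' (fun k => a (P.s0 + k)) (S - P.s0)
    have h2 : ∑ k ∈ Finset.range (S - P.s0), (a (P.s0 + k) - a (P.s0 + k + 1)) = a (P.s0 + 0) - a (P.s0 + (S - P.s0)) := h1
    rw [h2]
    have h3 : a (P.s0 + 0) ≤ 1 := (hETA D.H (P.s0 + 0) z).1.2.1
    have h4 : 0 ≤ a (P.s0 + (S - P.s0)) := (hETA D.H (P.s0 + (S - P.s0)) z).1.1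
    linarith
  have hB1 : ∑ s ∈ Finset.Ico P.s0 S, β s ≤ 25 * 2 ^ 9 := by
    refine le_trans (Finset.sum_le_sum_of_subset_of_nonneg ?_ (fun s _ _ => hβ0 s)) hβs
    intro s hs
    rw [Finset.mem_Ico] at hs
    rw [Finset.mem_range]
    omega
  have hB2 : ∑ s ∈ Finset.Ico P.s0 S, β (s + 1) ≤ 25 * 2 ^ 9 := by
    have h1 : ∑ s ∈ Finset.Ico P.s0 S, β (s + 1) = ∑ s ∈ Finset.Ico (P.s0 + 1) (S + 1), β s := by
      rw [Finset.sum_Ico_add' β P.s0 S 1]
    rw [h1]
    refine le_trans (Finset.sum_le_sum_of_subset_of_nonneg ?_ (fun s _ _ => hβ0 s)) hβs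
    intro s hs
    rw [Finset.mem_Ico] at hs
    rw [Finset.mem_range]
    omega
  calc ∑ s ∈ Finset.Ico P.s0 S, |reta D.H (s + 1) (p (s + 1)) - reta D.H s (p s)|
      = ∑ s ∈ Finset.Ico P.s0 S, |e (s + 1) - e s| := rfl
    _ ≤ ∑ s ∈ Finset.Ico P.s0 S, ((a s - a (s + 1)) + (β (s + 1) + β s)) := Finset.sum_le_sum hterm
    _ = ∑ s ∈ Finset.Ico P.s0 S, (a s - a (s + 1)) + (∑ s ∈ Finset.Ico P.s0 S, β (s + 1) + ∑ s ∈ Finset.Ico P.s0 S, β s) := by
        rw [Finset.sum_add_distrib, Finset.sum_add_distrib]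
    _ ≤ 25601 := by
        have : (25 : ℝ) * 2 ^ 9 = 12800 := by norm_num
        linarith

end Pool.Agent.helper90.DH
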